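import Mathlib
import Pool.Agent.Lib.MP_5e2afd_co.Transfer

set_option autoImplicit false

namespace Pool.Agent.Results.MP_5e2afd_co.EighthLowerBound

open Pool.Agent.Lib.MP_5e2afd_co

/-- For every `n` the hypercube has a subgraph without a 10-cycle and with at least one eighth
of all the edges. -/
theorem result (n : ℕ) :
    ∃ G : SimpleGraph (Fin n → Bool), G ≤ hypercube n ∧
      (SimpleGraph.cycleGraph 10).Free G ∧
      (hypercube n).edgeSet.ncard ≤ 8 * G.edgeSet.ncard := by
  obtain ⟨E, hsub, ε, hpar, hcard, hbad⟩ := cube n
  have hE : ∀ p ∈ E, p.2 ∉ p.1 := by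
    intro p hp
    have := hsub hp
    rw [allPairs, mem_pairs] at this
    exact this.2.1
  refine ⟨graphOf E hE, graphOf_le E hE, ?_, ?_⟩
  · rintro ⟨f⟩
    apply hbad
    have hadj : ∀ k : Fin 10, (graphOf E hE).Adj (f k) (f (k + 1)) := by
      intro k
      apply f.toHom.map_adj
      show k - (k + 1) = 1 ∨ (k + 1) - k = 1
      right
      revert k
      decide
    have hinj : Function.Injective (fun k => f k) := f.injective
    by_cases h0 : (supp (f 0)).card % 2 = ε
    · exact bad_of_cycle E hE ε hpar (fun k => f k) hinj hadj h0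
    · have h1 : (supp (f (0 + 1))).card % 2 = ε := by
        obtain ⟨p, hp, h | h⟩ := hadj 0
        · exfalso
          apply h0
          rw [h.1]; exact hpar p hp
        · rw [h.1]; exact hpar p hp
      refine bad_of_cycle E hE ε hpar (fun k => f (k + 1)) ?_ (fun k => hadj (k + 1)) h1
      intro k l hkl
      exact add_right_cancel (hinj hkl)
  · have h1 := card_le_graphOf E hE
    have h2 := hypercube_le_card n
    omega

end Pool.Agent.Results.MP_5e2afd_co.EighthLowerBound
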