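import Mathlib
import Pool.Agent.Lib.MP_5e2afd_co.UpH

set_option autoImplicit false

namespace Pool.Agent.Results.MP_5e2afd_co.QuarterUpperBound

open Pool.Agent.Lib.MP_5e2afd_co

/-- For every positive `ε` and all large `n`, a subgraph of the hypercube without a 10-cycle has
at most `(1/4 + ε)` times the number of edges of the hypercube. -/
theorem result : ∀ ε : ℝ, 0 < ε → ∃ N : ℕ, ∀ n ≥ N, ∀ G : SimpleGraph (Fin n → Bool),
    G ≤ hypercube n → (SimpleGraph.cycleGraph 10).Free G →
      (G.edgeSet.ncard : ℝ) ≤ (1 / 4 + ε) * (hypercube n).edgeSet.ncard :=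
  fun ε hε => Up.upper ε hε

end Pool.Agent.Results.MP_5e2afd_co.QuarterUpperBound
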